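import Mathlib

/-!
The Cayley 2-complex of the infinite presentation
`⟨x₀, x₁, x₂, … ∣ x_k⁻¹ x_n x_k = x_{n+1} (k < n)⟩` of Thompson's group `F`, as a
topological space.
-/

namespace Pool.Agent.H.MP_d8e3a9_al

open unitInterval Topology

/-- The relators `x_k⁻¹ x_n x_k x_{n+1}⁻¹`, `k < n`. -/
def relators : Set (FreeGroup ℕ) :=
  {r | ∃ k n : ℕ, k < n ∧
    r = (FreeGroup.of k)⁻¹ * FreeGroup.of n * FreeGroup.of k * (FreeGroup.of (n + 1))⁻¹}

/-- Thompson's group `F`. -/
abbrev F := PresentedGroup relators

/-- The generator `x_n` of `F`. -/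
def gen (n : ℕ) : F := PresentedGroup.of n

theorem gen_rel {k n : ℕ} (h : k < n) : gen n * gen k = gen k * gen (n + 1) := by
  have h1 : (FreeGroup.of k)⁻¹ * FreeGroup.of n * FreeGroup.of k * (FreeGroup.of (n + 1))⁻¹ ∈
      relators := ⟨k, n, h, rfl⟩
  have h2 := PresentedGroup.one_of_mem h1
  simp only [map_mul, map_inv] at h2
  have h3 : (gen k)⁻¹ * gen n * gen k * (gen (n + 1))⁻¹ = 1 := h2
  rw [mul_inv_eq_one] at h3
  rw [← h3]
  group

/-- Indices of relators: pairs `(k, n)` with `k < n`. -/
abbrev Rel := {p : ℕ × ℕ // p.1 < p.2}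

/-- Indices of the cells of the Cayley complex: vertices `g`, edges `(g, n)` from `g` to
`g x_n`, and 2-cells `(g, (k, n))` attached along the loop of the relator `(k, n)` at `g`. -/
inductive CellIx
  | v (g : F)
  | e (g : F) (n : ℕ)
  | f (g : F) (r : Rel)

/-- The closed cells: points, closed intervals and closed squares. -/
def CellSp : CellIx → Type
  | .v _ => Unit
  | .e _ _ => I
  | .f _ _ => I × I

instance (c : CellIx) : TopologicalSpace (CellSp c) :=
  match c with
  | .v _ => inferInstanceAs (TopologicalSpace Unit)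
  | .e _ _ => inferInstanceAs (TopologicalSpace I)
  | .f _ _ => inferInstanceAs (TopologicalSpace (I × I))

/-- The disjoint union of the closed cells. -/
abbrev Cells := Σ c : CellIx, CellSp c

/-- A point of a vertex. -/
def pv (g : F) : Cells := ⟨.v g, ()⟩
/-- A point of an edge. -/
def pe (g : F) (n : ℕ) (s : I) : Cells := ⟨.e g n, s⟩
/-- A point of a square. -/
def pf (g : F) (r : Rel) (s t : I) : Cells := ⟨.f g r, (s, t)⟩

/-- The gluing relation. The edge `(g, n)` runs from `g` to `g x_n`. The boundary of the square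
`(g, (k, n))` is the loop at `g` of the relation `x_n x_k = x_k x_{n+1}`: bottom edge
`(g, n)`, right edge `(g x_n, k)`, left edge `(g, k)` and top edge `(g x_k, n + 1)`. -/
inductive Glue : Cells → Cells → Prop
  | e0 (g : F) (n : ℕ) : Glue (pe g n 0) (pv g)
  | e1 (g : F) (n : ℕ) : Glue (pe g n 1) (pv (g * gen n))
  | bot (g : F) (r : Rel) (s : I) : Glue (pf g r s 0) (pe g r.1.2 s)
  | left (g : F) (r : Rel) (t : I) : Glue (pf g r 0 t) (pe g r.1.1 t)
  | right (g : F) (r : Rel) (t : I) : Glue (pf g r 1 t) (pe (g * gen r.1.2) r.1.1 t)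
  | top (g : F) (r : Rel) (s : I) : Glue (pf g r s 1) (pe (g * gen r.1.1) (r.1.2 + 1) s)

/-- The Cayley complex of the presentation, with the quotient topology. -/
def Cay : Type := Quot Glue

instance : TopologicalSpace Cay := inferInstanceAs (TopologicalSpace (Quot Glue))

/-- The projection from the disjoint union of the cells. -/
def mk (p : Cells) : Cay := Quot.mk Glue p

theorem continuous_mk : Continuous mk := continuous_quot_mk

/-- The closed cell with index `c`. -/
def closedCell (c : CellIx) : Set Cay := Set.range fun p : CellSp c => mk ⟨c, p⟩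

/-- A finite subcomplex: a union of finitely many closed cells (the boundary of a closed
cell is a union of closed cells, so such a union is a subcomplex). -/
def IsFiniteSubcomplex (C : Set Cay) : Prop :=
  ∃ A : Set CellIx, A.Finite ∧ C = ⋃ c ∈ A, closedCell c

/-- Functions on the Cayley complex from functions on the cells. -/
def desc {Y : Type*} (fv : F → Y) (fe : F → ℕ → I → Y) (ff : F → Rel → I → I → Y)
    (h0 : ∀ g n, fe g n 0 = fv g) (h1 : ∀ g n, fe g n 1 = fv (g * gen n))
    (hb : ∀ g r s, ff g r s 0 = fe g r.1.2 s) (hl : ∀ g r t, ff g r 0 t = fe g r.1.1 t)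
    (hr : ∀ g r t, ff g r 1 t = fe (g * gen r.1.2) r.1.1 t)
    (ht : ∀ g r s, ff g r s 1 = fe (g * gen r.1.1) (r.1.2 + 1) s) : Cay → Y :=
  Quot.lift (fun p => match p with
    | ⟨.v g, _⟩ => fv g
    | ⟨.e g n, s⟩ => fe g n s
    | ⟨.f g r, q⟩ => ff g r q.1 q.2) (by
    intro a b hab
    cases hab with
    | e0 g n => exact h0 g n
    | e1 g n => exact h1 g n
    | bot g r s => exact hb g r s
    | left g r t => exact hl g r t
    | right g r t => exact hr g r t
    | top g r s => exact ht g r s)

theorem isOpen_iff {U : Set Cay} : IsOpen U ↔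
    (∀ g n, IsOpen {s : I | mk (pe g n s) ∈ U}) ∧
      ∀ g r, IsOpen {q : I × I | mk (pf g r q.1 q.2) ∈ U} := by
  have h1 : IsOpen U ↔ IsOpen (mk ⁻¹' U) := Iff.rfl
  rw [h1, isOpen_sigma_iff]
  constructor
  · intro h
    exact ⟨fun g n => h (.e g n), fun g r => h (.f g r)⟩
  · rintro ⟨h2, h3⟩ c
    cases c with
    | v g =>
      have : DiscreteTopology (CellSp (.v g)) := inferInstanceAs (DiscreteTopology Unit)
      exact isOpen_discrete _
    | e g n => exact h2 g n
    | f g r => exact h3 g r

/-- Continuity on open sets can be checked on the cells. -/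
theorem continuousOn_of_cells {Y : Type*} [TopologicalSpace Y] {φ : Cay → Y} {U : Set Cay}
    (hU : IsOpen U)
    (he : ∀ g n, ContinuousOn (fun s : I => φ (mk (pe g n s))) {s | mk (pe g n s) ∈ U})
    (hf : ∀ g r, ContinuousOn (fun q : I × I => φ (mk (pf g r q.1 q.2)))
      {q | mk (pf g r q.1 q.2) ∈ U}) : ContinuousOn φ U := by
  rw [continuousOn_open_iff hU]
  intro V hV
  have hU' := isOpen_iff.1 hU
  rw [isOpen_iff]
  constructor
  · intro g n
    exact (he g n).isOpen_inter_preimage (hU'.1 g n) hV
  · intro g r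
    exact (hf g r).isOpen_inter_preimage (hU'.2 g r) hV

theorem continuous_of_cells {Y : Type*} [TopologicalSpace Y] {φ : Cay → Y}
    (he : ∀ g n, Continuous (fun s : I => φ (mk (pe g n s))))
    (hf : ∀ g r, Continuous (fun q : I × I => φ (mk (pf g r q.1 q.2)))) : Continuous φ := by
  rw [← continuousOn_univ]
  exact continuousOn_of_cells isOpen_univ (fun g n => (he g n).continuousOn)
    (fun g r => (hf g r).continuousOn)

end Pool.Agent.H.MP_d8e3a9_al
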