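import Pool.Agent.H.MP_d8e3a9_al.Maps

/-!
Loops through the squares `(1, (0, m + 1))`.
-/

namespace Pool.Agent.H.MP_d8e3a9_al

open unitInterval Topology

/-- The midpoint of the interval. -/
noncomputable def half : I := ⟨1 / 2, by norm_num, by norm_num⟩

/-- The midpoint of an edge. -/
noncomputable def mid (g : F) (n : ℕ) : Cay := mk (pe g n half)

/-- The horizontal slice through the middle of the square `(g, (0, m + 1))`. -/
noncomputable def slice (g : F) (m : ℕ) : Path (mid g 0) (mid (g * gen (m + 1)) 0) where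
  toFun s := mk (pf g (r0 m) s half)
  continuous_toFun := by
    have h1 : Continuous (Sigma.mk (CellIx.f g (r0 m)) : CellSp (.f g (r0 m)) → Cells) :=
      continuous_sigmaMk
    have h2 : Continuous (fun s : I => (s, half)) := by fun_prop
    exact continuous_mk.comp (h1.comp h2)
  source' := mk_glue (.left g (r0 m) half)
  target' := mk_glue (.right g (r0 m) half)

theorem slice_apply (g : F) (m : ℕ) (s : I) : slice g m s = mk (pf g (r0 m) s half) := rfl

theorem W_slice (g : F) (m : ℕ) (s : I) : 0 < W (slice g m s) := by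
  rw [slice_apply, W_pf]
  have := mul_one_sub_nonneg s
  have h : ((half : I) : ℝ) = 1 / 2 := rfl
  rw [h]
  linarith

theorem mid_eq {m : ℕ} (hm : 1 ≤ m) :
    mid (1 * gen (m + 1) * gen (0 + 1)) 0 = mid (1 * gen (0 + 1) * gen (m + 1 + 1)) 0 := by
  rw [one_mul, one_mul, gen_rel (by omega : 0 + 1 < m + 1)]

/-- The return path, which avoids the square `(1, (0, m + 1))`. -/
noncomputable def back (m : ℕ) (hm : 1 ≤ m) : Path (mid (1 * gen (m + 1)) 0) (mid 1 0) :=
  ((slice (1 * gen (m + 1)) 0).trans
    ((slice (1 * gen (0 + 1)) (m + 1)).symm.cast (mid_eq hm) rfl)).trans (slice 1 0).symm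

theorem back_range (m : ℕ) (hm : 1 ≤ m) (P : Cay → Prop)
    (h1 : ∀ s, P (slice (1 * gen (m + 1)) 0 s))
    (h2 : ∀ s, P (slice (1 * gen (0 + 1)) (m + 1) s)) (h3 : ∀ s, P (slice 1 0 s)) (t : I) :
    P (back m hm t) := by
  have h4 : back m hm t ∈ Set.range (back m hm) := ⟨t, rfl⟩
  unfold back at h4
  rw [Path.trans_range, Path.trans_range] at h4
  unfold back
  rcases h4 with (⟨s, hs⟩ | ⟨s, hs⟩) | ⟨s, hs⟩
  · rw [← hs]; exact h1 s
  · rw [← hs]; exact h2 (σ s)
  · rw [← hs]; exact h3 (σ s)

theorem circ_slice_of_ne {m m' : ℕ} {g : F} (h : m' ≠ m) (s : I) :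
    circ m (slice g m' s) = 0 := by
  classical
  rw [slice_apply, circ_pf, if_neg]
  rintro ⟨-, h2⟩
  exact h (r0_inj h2)

theorem circ_back (m : ℕ) (hm : 1 ≤ m) (t : I) : circ m (back m hm t) = 0 := by
  refine back_range m hm (fun z => circ m z = 0) ?_ ?_ ?_ t
  · intro s
    exact circ_slice_of_ne (by omega) s
  · intro s
    exact circ_slice_of_ne (by omega) s
  · intro s
    exact circ_slice_of_ne (by omega) s

/-- The loop through the square `(1, (0, m + 1))`. -/
noncomputable def loop (m : ℕ) (hm : 1 ≤ m) : Path (mid 1 0) (mid 1 0) :=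
  (slice 1 m).trans (back m hm)

theorem W_loop (m : ℕ) (hm : 1 ≤ m) (t : I) : 0 < W (loop m hm t) := by
  have h4 : loop m hm t ∈ Set.range (loop m hm) := ⟨t, rfl⟩
  unfold loop at h4
  rw [Path.trans_range] at h4
  unfold loop
  rcases h4 with ⟨s, hs⟩ | ⟨s, hs⟩
  · rw [← hs]; exact W_slice _ _ _
  · rw [← hs]
    exact back_range m hm (fun z => 0 < W z) (W_slice _ _) (W_slice _ _) (W_slice _ _) s

/-- The lift to the line of the image of the first part of the loop. -/
noncomputable def hp : Path (0 : ℝ) 1 where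
  toFun s := hsq s (1 / 2)
  continuous_toFun := by
    unfold hsq
    apply Continuous.div
    · fun_prop
    · fun_prop
    · intro s
      have h1 := s.2.1
      have h2 := s.2.2
      have : 0 < (s : ℝ) + 1 / 2 * (1 - 1 / 2) * (1 - s) := by nlinarith
      exact this.ne'
  source' := by simp [hsq]
  target' := by simp [hsq]

theorem circ_loop (m : ℕ) (hm : 1 ≤ m) (t : I) :
    circ m (loop m hm t) = ((hp.trans (Path.refl 1) t : ℝ) : AddCircle (1 : ℝ)) := by
  classical
  unfold loop
  rw [Path.trans_apply, Path.trans_apply]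
  split_ifs with h
  · rw [slice_apply, circ_pf, if_pos ⟨rfl, rfl⟩]
    rfl
  · rw [circ_back]
    exact (AddCircle.coe_period 1).symm

/-- A loop in the circle which lifts to a path from `0` to `1` is essential. -/
theorem essential {γ : Path ((0 : ℝ) : AddCircle (1 : ℝ)) ((0 : ℝ) : AddCircle (1 : ℝ))}
    (h : ∀ t, γ t = ((hp.trans (Path.refl 1) t : ℝ) : AddCircle (1 : ℝ))) :
    ¬ Path.Homotopic γ (Path.refl _) := by
  intro hh
  have cov := AddCircle.isCoveringMap_coe (1 : ℝ)
  have h0 : γ.toContinuousMap 0 = ((0 : ℝ) : AddCircle (1 : ℝ)) := γ.source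
  have h0' : (Path.refl ((0 : ℝ) : AddCircle (1 : ℝ))).toContinuousMap 0 =
    ((0 : ℝ) : AddCircle (1 : ℝ)) := rfl
  have h1 := cov.liftPath_apply_one_eq_of_homotopicRel hh 0 h0 h0'
  have h2 : (hp.trans (Path.refl 1)).toContinuousMap = cov.liftPath γ.toContinuousMap 0 h0 := by
    rw [cov.eq_liftPath_iff']
    refine ⟨?_, ?_⟩
    · funext t
      exact (h t).symm
    · exact (hp.trans (Path.refl 1)).source
  have h3 : (ContinuousMap.const I (0 : ℝ)) =
      cov.liftPath (Path.refl ((0 : ℝ) : AddCircle (1 : ℝ))).toContinuousMap 0 h0' := by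
    rw [cov.eq_liftPath_iff']
    exact ⟨rfl, rfl⟩
  rw [← h2, ← h3] at h1
  have h4 : (hp.trans (Path.refl 1) : Path (0 : ℝ) 1) 1 = 1 := (hp.trans (Path.refl 1)).target
  have h5 : (hp.trans (Path.refl 1) : Path (0 : ℝ) 1) 1 = 0 := h1
  rw [h4] at h5
  exact one_ne_zero h5

/-- A component of the complement of `C0`. -/
abbrev K0 : Set Cay := connectedComponentIn C0ᶜ (mid 1 0)

theorem W_mid : 0 < W (mid 1 0) := by
  show 0 < ((half : I) : ℝ) * (1 - half)
  have h : ((half : I) : ℝ) = 1 / 2 := rfl
  rw [h]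
  norm_num

theorem mid_mem : mid 1 0 ∈ C0ᶜ := notMem_C0_of_W W_mid

/-- The base point. -/
noncomputable def base : K0 := ⟨mid 1 0, mem_connectedComponentIn mid_mem⟩

/-- The loop in the component. -/
noncomputable def loopK (m : ℕ) (hm : 1 ≤ m) : Path base base where
  toFun t := ⟨loop m hm t, by
    have h1 : IsPreconnected (Set.range (loop m hm)) :=
      isPreconnected_range (loop m hm).continuous
    have h2 : Set.range (loop m hm) ⊆ C0ᶜ := by
      rintro _ ⟨t, rfl⟩
      exact notMem_C0_of_W (W_loop m hm t)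
    exact h1.subset_connectedComponentIn ⟨0, (loop m hm).source⟩ h2 ⟨t, rfl⟩⟩
  continuous_toFun := (loop m hm).continuous.subtype_mk _
  source' := Subtype.ext (loop m hm).source
  target' := Subtype.ext (loop m hm).target

/-- The map to the circle on the component. -/
noncomputable def circK (m : ℕ) : C(K0, AddCircle (1 : ℝ)) where
  toFun z := circ m z
  continuous_toFun := by
    have h : Continuous (fun z : K0 => circ m z) :=
      (continuousOn_circ m).comp_continuous continuous_subtype_val
        (fun z => connectedComponentIn_subset _ _ z.2)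
    exact h

theorem circK_loopK (m : ℕ) (hm : 1 ≤ m) :
    ¬ Path.Homotopic ((loopK m hm).map (circK m).continuous) (Path.refl _) := by
  intro h
  have h0 : circK m base = ((0 : ℝ) : AddCircle (1 : ℝ)) := rfl
  exact essential (γ := (loopK m hm).map (circK m).continuous) (fun t => circ_loop m hm t) h

theorem not_fg : ¬ Group.FG (FundamentalGroup K0 base) := by
  intro hfg
  obtain ⟨S, hS⟩ := Group.fg_def.1 hfg
  -- representatives
  have hrep : ∀ a : FundamentalGroup K0 base, ∃ γ : Path base base,
      (⟦γ⟧ : Path.Homotopic.Quotient base base) = a := fun a => Quotient.exists_rep a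
  choose rep hrep using hrep
  let L : Set Cay := ⋃ a ∈ S, Set.range fun t => ((rep a t : K0) : Cay)
  have hL : IsCompact L := by
    refine S.finite_toSet.isCompact_biUnion fun a _ => ?_
    exact isCompact_range (continuous_subtype_val.comp (rep a).continuous)
  obtain ⟨m, hm1, hm2⟩ : ∃ m, 1 ≤ m ∧ ∀ z ∈ L, circ m z = 0 := by
    have hfin := finite_of_isCompact hL
    obtain ⟨N, hN⟩ := hfin.bddAbove
    refine ⟨N + 1, by omega, fun z hz => ?_⟩
    by_contra h
    have := hN ⟨z, hz, h⟩
    omega
  let φ := FundamentalGroup.map (circK m) base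
  have hφ : φ = 1 := by
    have h1 : (⊤ : Subgroup (FundamentalGroup K0 base)) ≤ φ.ker := by
      rw [← hS, Subgroup.closure_le]
      intro a ha
      have h2 : (rep a).map (circK m).continuous = Path.refl _ := by
        ext t
        exact hm2 _ (Set.mem_biUnion ha ⟨t, rfl⟩)
      show φ a = 1
      rw [← hrep a]
      show (⟦(rep a).map (circK m).continuous⟧ : Path.Homotopic.Quotient _ _) = ⟦Path.refl _⟧
      rw [h2]
    ext a
    exact h1 (Subgroup.mem_top a)
  have h3 : φ (⟦loopK m hm1⟧ : Path.Homotopic.Quotient base base) = 1 := by rw [hφ]; rfl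
  have h4 : (⟦(loopK m hm1).map (circK m).continuous⟧ : Path.Homotopic.Quotient _ _) =
      ⟦Path.refl _⟧ := h3
  exact circK_loopK m hm1 (Quotient.exact h4)

end Pool.Agent.H.MP_d8e3a9_al
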