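import Pool.Agent.H.MP_d8e3a9_al.Cayley

/-!
Some continuous maps from (parts of) the Cayley complex to the line and the circle.
-/

namespace Pool.Agent.H.MP_d8e3a9_al

open unitInterval Topology

/-- A continuous function vanishing exactly on the vertices. -/
noncomputable def W : Cay → ℝ :=
  desc (fun _ => 0) (fun _ _ s => s * (1 - s)) (fun _ _ s t => s * (1 - s) + t * (1 - t))
    (by simp) (by simp) (by simp) (by simp) (by simp) (by simp)

theorem W_pe (g : F) (n : ℕ) (s : I) : W (mk (pe g n s)) = s * (1 - s) := rfl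

theorem W_pf (g : F) (r : Rel) (s t : I) :
    W (mk (pf g r s t)) = s * (1 - s) + t * (1 - t) := rfl

theorem continuous_W : Continuous W := by
  apply continuous_of_cells
  · intro g n
    simp only [W_pe]
    fun_prop
  · intro g r
    simp only [W_pf]
    fun_prop

theorem mk_glue {a b : Cells} (h : Glue a b) : mk a = mk b := Quot.sound h

theorem zero_or_one_of_mul {s : I} (h : (s : ℝ) * (1 - s) = 0) : s = 0 ∨ s = 1 := by
  rcases mul_eq_zero.1 h with h1 | h1
  · left; exact Subtype.ext h1
  · right; apply Subtype.ext; simp only [Set.Icc.coe_one]; linarith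

theorem mul_one_sub_nonneg (s : I) : 0 ≤ (s : ℝ) * (1 - s) :=
  mul_nonneg s.2.1 (by have := s.2.2; linarith)

theorem cells_cases (z : Cay) : (∃ g, z = mk (pv g)) ∨ (∃ g n s, z = mk (pe g n s)) ∨
    ∃ g r s t, z = mk (pf g r s t) := by
  obtain ⟨⟨c, q⟩, rfl⟩ := Quot.exists_rep z
  cases c with
  | v g => exact Or.inl ⟨g, rfl⟩
  | e g n => exact Or.inr (Or.inl ⟨g, n, q, rfl⟩)
  | f g r => exact Or.inr (Or.inr ⟨g, r, q.1, q.2, rfl⟩)

theorem vertex_of_edge_end {g : F} {n : ℕ} {s : I} (h : s = 0 ∨ s = 1) :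
    ∃ g', mk (pe g n s) = mk (pv g') := by
  rcases h with rfl | rfl
  · exact ⟨_, mk_glue (.e0 g n)⟩
  · exact ⟨_, mk_glue (.e1 g n)⟩

theorem vertex_of_W {z : Cay} (h : W z = 0) : ∃ g, z = mk (pv g) := by
  rcases cells_cases z with ⟨g, rfl⟩ | ⟨g, n, s, rfl⟩ | ⟨g, r, s, t, rfl⟩
  · exact ⟨g, rfl⟩
  · rw [W_pe] at h
    exact vertex_of_edge_end (zero_or_one_of_mul h)
  · rw [W_pf] at h
    have h1 := mul_one_sub_nonneg s
    have h2 := mul_one_sub_nonneg t
    have hs := zero_or_one_of_mul (s := s) (by linarith)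
    have ht := zero_or_one_of_mul (s := t) (by linarith)
    rcases hs with rfl | rfl
    · obtain ⟨g', hg'⟩ := vertex_of_edge_end (g := g) (n := r.1.1) ht
      exact ⟨g', (mk_glue (.left g r t)).trans hg'⟩
    · obtain ⟨g', hg'⟩ := vertex_of_edge_end (g := g * gen r.1.2) (n := r.1.1) ht
      exact ⟨g', (mk_glue (.right g r t)).trans hg'⟩

/-- The multilinear extension of a function on the vertices. -/
noncomputable def Dm (u : F → ℝ) : Cay → ℝ :=
  desc u (fun g n s => (1 - s) * u g + s * u (g * gen n))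
    (fun g r s t => (1 - s) * (1 - t) * u g + s * (1 - t) * u (g * gen r.1.2) +
      (1 - s) * t * u (g * gen r.1.1) + s * t * u (g * gen r.1.2 * gen r.1.1))
    (by simp) (by simp) (by simp) (by simp) (by simp)
    (by
      intro g r s
      have h : g * gen r.1.2 * gen r.1.1 = g * gen r.1.1 * gen (r.1.2 + 1) := by
        rw [mul_assoc, gen_rel r.2, mul_assoc]
      simp [h])

theorem Dm_pv (u : F → ℝ) (g : F) : Dm u (mk (pv g)) = u g := rfl

theorem continuous_Dm (u : F → ℝ) : Continuous (Dm u) := by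
  apply continuous_of_cells
  · intro g n
    show Continuous fun s : I => (1 - (s : ℝ)) * u g + s * u (g * gen n)
    fun_prop
  · intro g r
    show Continuous fun q : I × I => (1 - (q.1 : ℝ)) * (1 - (q.2 : ℝ)) * u g +
      (q.1 : ℝ) * (1 - (q.2 : ℝ)) * u (g * gen r.1.2) +
      (1 - (q.1 : ℝ)) * (q.2 : ℝ) * u (g * gen r.1.1) +
      (q.1 : ℝ) * (q.2 : ℝ) * u (g * gen r.1.2 * gen r.1.1)
    fun_prop

/-- The finite subcomplex consisting of the two vertices `1` and `x₀`. -/
def C0 : Set Cay := {mk (pv 1), mk (pv (gen 0))}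

theorem isFiniteSubcomplex_C0 : IsFiniteSubcomplex C0 := by
  refine ⟨{.v 1, .v (gen 0)}, by simp, ?_⟩
  have h : ∀ g, closedCell (.v g) = {mk (pv g)} := by
    intro g
    ext z
    constructor
    · rintro ⟨p, rfl⟩
      rfl
    · rintro rfl
      exact ⟨(), rfl⟩
  simp only [Set.biUnion_insert, Set.biUnion_singleton, h]
  rfl

theorem isClosed_C0 : IsClosed C0 := by
  classical
  let u : F → ℝ := fun g => if g = 1 ∨ g = gen 0 then 0 else 1
  have h : C0 = W ⁻¹' {0} ∩ (Dm u) ⁻¹' {0} := by
    ext z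
    constructor
    · rintro (rfl | rfl)
      · refine ⟨rfl, ?_⟩
        show u 1 = 0
        simp [u]
      · refine ⟨rfl, ?_⟩
        show u (gen 0) = 0
        simp [u]
    · rintro ⟨h1, h2⟩
      obtain ⟨g, rfl⟩ := vertex_of_W h1
      have h3 : u g = 0 := h2
      have h4 : g = 1 ∨ g = gen 0 := by
        by_contra h
        simp only [u, if_neg h] at h3
        exact one_ne_zero h3
      rcases h4 with rfl | rfl
      · exact Or.inl rfl
      · exact Or.inr rfl
  rw [h]
  exact (isClosed_singleton.preimage continuous_W).inter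
    (isClosed_singleton.preimage (continuous_Dm u))

theorem notMem_C0_of_W {z : Cay} (h : 0 < W z) : z ∉ C0 := by
  rintro (rfl | rfl)
  · exact lt_irrefl _ h
  · exact lt_irrefl _ h

/-- The relator `(0, m + 1)`. -/
def r0 (m : ℕ) : Rel := ⟨(0, m + 1), Nat.succ_pos m⟩

theorem r0_inj {m m' : ℕ} (h : r0 m = r0 m') : m = m' := by
  have := congrArg (fun r : Rel => r.1.2) h
  simpa [r0] using this

/-- The function on the square which is `0` on the left side and `1` on the other sides. -/
noncomputable def hsq (s t : ℝ) : ℝ := s / (s + t * (1 - t) * (1 - s))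

theorem hsq_left (t : ℝ) : hsq 0 t = 0 := by simp [hsq]

theorem hsq_right (t : ℝ) : hsq 1 t = 1 := by simp [hsq]

theorem hsq_bot (s : ℝ) : ((hsq s 0 : ℝ) : AddCircle (1 : ℝ)) = 0 := by
  by_cases h : s = 0
  · simp [hsq, h]
  · have : hsq s 0 = 1 := by simp [hsq, h]
    rw [this]
    exact AddCircle.coe_period 1

theorem hsq_top (s : ℝ) : ((hsq s 1 : ℝ) : AddCircle (1 : ℝ)) = 0 := by
  by_cases h : s = 0
  · simp [hsq, h]
  · have : hsq s 1 = 1 := by simp [hsq, h]
    rw [this]
    exact AddCircle.coe_period 1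

open Classical in
/-- The map to the circle which is constant outside the square `(1, (0, m + 1))`. -/
noncomputable def circ (m : ℕ) : Cay → AddCircle (1 : ℝ) :=
  desc (fun _ => 0) (fun _ _ _ => 0)
    (fun g r s t => if g = 1 ∧ r = r0 m then ((hsq s t : ℝ) : AddCircle (1 : ℝ)) else 0)
    (by simp) (by simp)
    (by intro g r s; split_ifs <;> simp [hsq_bot])
    (by intro g r t; split_ifs <;> simp [hsq_left])
    (by intro g r t; split_ifs <;> simp [hsq_right])
    (by intro g r s; split_ifs <;> simp [hsq_top])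

open Classical in
theorem circ_pf (m : ℕ) (g : F) (r : Rel) (s t : I) : circ m (mk (pf g r s t)) =
    if g = 1 ∧ r = r0 m then ((hsq s t : ℝ) : AddCircle (1 : ℝ)) else 0 := rfl

theorem continuousOn_circ (m : ℕ) : ContinuousOn (circ m) C0ᶜ := by
  classical
  apply continuousOn_of_cells isClosed_C0.isOpen_compl
  · intro g n
    exact continuousOn_const
  · intro g r
    simp only [circ_pf]
    by_cases h : g = 1 ∧ r = r0 m
    · simp only [if_pos h]
      obtain ⟨rfl, rfl⟩ := h
      have h1 : ContinuousOn (fun q : I × I => hsq q.1 q.2)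
          {q | mk (pf 1 (r0 m) q.1 q.2) ∈ C0ᶜ} := by
        unfold hsq
        apply ContinuousOn.div
        · fun_prop
        · fun_prop
        · rintro ⟨s, t⟩ hst
          simp only [Set.mem_ofPred_eq] at hst
          simp only
          have hs := s.2.1
          have ht := mul_one_sub_nonneg t
          have hs1 := s.2.2
          by_cases hs0 : s = 0
          · subst hs0
            simp only [Set.Icc.coe_zero, zero_add, sub_zero, mul_one]
            intro h0
            rcases zero_or_one_of_mul h0 with rfl | rfl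
            · apply hst
              left
              exact (mk_glue (.left 1 (r0 m) 0)).trans (mk_glue (.e0 1 _))
            · apply hst
              right
              have h2 := (mk_glue (.left 1 (r0 m) 1)).trans (mk_glue (.e1 1 _))
              rw [one_mul] at h2
              exact h2
          · have hs' : 0 < (s : ℝ) := lt_of_le_of_ne hs (fun h => hs0 (Subtype.ext h.symm))
            have : 0 ≤ (t : ℝ) * (1 - t) * (1 - s) := mul_nonneg ht (by linarith)
            linarith
      exact (AddCircle.continuous_mk' (1 : ℝ)).comp_continuousOn h1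
    · simp only [if_neg h]
      exact continuousOn_const

theorem circ_ne_zero {m : ℕ} {z : Cay} (h : circ m z ≠ 0) :
    ∃ s t : I, z = mk (pf 1 (r0 m) s t) ∧ 0 < (s : ℝ) * (1 - s) * (t * (1 - t)) := by
  classical
  rcases cells_cases z with ⟨g, rfl⟩ | ⟨g, n, s, rfl⟩ | ⟨g, r, s, t, rfl⟩
  · exact absurd rfl h
  · exact absurd rfl h
  · rw [circ_pf] at h
    by_cases h1 : g = 1 ∧ r = r0 m
    · rw [if_pos h1] at h
      obtain ⟨rfl, rfl⟩ := h1
      refine ⟨s, t, rfl, ?_⟩
      have hs := mul_one_sub_nonneg s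
      have ht := mul_one_sub_nonneg t
      apply mul_pos
      · apply lt_of_le_of_ne hs
        intro h0
        rcases zero_or_one_of_mul h0.symm with rfl | rfl
        · exact h (by simp [hsq_left])
        · exact h (by simp only [Set.Icc.coe_one, hsq_right]; exact AddCircle.coe_period 1)
      · apply lt_of_le_of_ne ht
        intro h0
        rcases zero_or_one_of_mul h0.symm with rfl | rfl
        · exact h (by simp [hsq_bot])
        · exact h (by simp [hsq_top])
    · rw [if_neg h1] at h
      exact absurd rfl h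

open Classical in
/-- Bumps on the squares `(1, (0, m + 1))`. -/
noncomputable def bump (c : ℕ → ℝ) : Cay → ℝ :=
  desc (fun _ => 0) (fun _ _ _ => 0)
    (fun g r s t => if g = 1 ∧ r.1.1 = 0 then c (r.1.2 - 1) * (s * (1 - s) * (t * (1 - t))) else 0)
    (by simp) (by simp) (by intro g r s; split_ifs <;> simp) (by intro g r s; split_ifs <;> simp)
    (by intro g r s; split_ifs <;> simp) (by intro g r s; split_ifs <;> simp)

theorem bump_pf (c : ℕ → ℝ) (m : ℕ) (s t : I) : bump c (mk (pf 1 (r0 m) s t)) =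
    c m * (s * (1 - s) * (t * (1 - t))) := by
  classical
  show (if (1 : F) = 1 ∧ (r0 m).1.1 = 0 then
    c ((r0 m).1.2 - 1) * (s * (1 - s) * (t * (1 - t))) else 0) = _
  rw [if_pos ⟨rfl, rfl⟩]
  simp [r0]

theorem continuous_bump (c : ℕ → ℝ) : Continuous (bump c) := by
  classical
  apply continuous_of_cells
  · intro g n
    exact continuous_const
  · intro g r
    show Continuous fun q : I × I => if g = 1 ∧ r.1.1 = 0 then
      c (r.1.2 - 1) * (((q.1 : I) : ℝ) * (1 - q.1) * (q.2 * (1 - q.2))) else 0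
    split_ifs
    · fun_prop
    · exact continuous_const

/-- A compact set meets only finitely many of the squares `(1, (0, m + 1))`. -/
theorem finite_of_isCompact {L : Set Cay} (hL : IsCompact L) :
    {m : ℕ | ∃ z ∈ L, circ m z ≠ 0}.Finite := by
  classical
  by_contra hinf
  have hinf' : {m : ℕ | ∃ z ∈ L, circ m z ≠ 0}.Infinite := hinf
  have h1 : ∀ m ∈ {m : ℕ | ∃ z ∈ L, circ m z ≠ 0}, ∃ p : I × I,
      mk (pf 1 (r0 m) p.1 p.2) ∈ L ∧
        0 < ((p.1 : I) : ℝ) * (1 - p.1) * (p.2 * (1 - p.2)) := by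
    rintro m ⟨z, hz, hz2⟩
    obtain ⟨s, t, rfl, h⟩ := circ_ne_zero hz2
    exact ⟨(s, t), hz, h⟩
  choose! p hp1 hp2 using h1
  let c : ℕ → ℝ := fun m => m / (((p m).1 : ℝ) * (1 - (p m).1) * ((p m).2 * (1 - (p m).2)))
  obtain ⟨B, hB⟩ := (hL.image (continuous_bump c)).bddAbove
  obtain ⟨m, hm, hmB⟩ : ∃ m ∈ {m : ℕ | ∃ z ∈ L, circ m z ≠ 0}, B < m := by
    obtain ⟨N, hN⟩ := exists_nat_gt B
    obtain ⟨m, hm, hm2⟩ := hinf'.exists_gt N
    exact ⟨m, hm, lt_trans hN (by exact_mod_cast hm2)⟩
  have h2 := hB ⟨_, hp1 m hm, rfl⟩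
  rw [bump_pf] at h2
  have h3 := hp2 m hm
  simp only [c] at h2
  rw [div_mul_cancel₀ _ h3.ne'] at h2
  linarith

end Pool.Agent.H.MP_d8e3a9_al
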