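import Mathlib
import Pool.Agent.H.MP_d8e3a9_al.Cayley

/-!
Edge paths in the Cayley 2-complex of `⟨x₀, x₁, … ∣ x_k⁻¹ x_n x_k = x_{n+1} (k < n)⟩` outside a
finite set of vertices: pushing them away by the generators with large index.
-/

namespace Pool.Agent.H.MP_d8e3a9_al

/-- Words in the letters `(n, true) = x_n` and `(n, false) = x_n⁻¹`. -/
abbrev Word := List (ℕ × Bool)

/-- The element of `F` represented by a word. -/
def val (w : Word) : F := PresentedGroup.mk relators (FreeGroup.mk w)

/-- All the vertices of the edge path that starts at `g` and has the labels `w` are outside `C`,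
that is, the path runs in the full subcomplex spanned by the vertices outside `C`. -/
def Avoids (C : Set F) : F → Word → Prop
  | g, [] => g ∉ C
  | g, l :: w => g ∉ C ∧ Avoids C (g * val [l]) w

/-- Elementary homotopies, with fixed end points, of edge paths that start at `g` and run in the
full subcomplex spanned by the vertices outside `C`: removal of an edge traversed back and forth,
and removal of the boundary loop of a 2-cell. -/
inductive Step (C : Set F) (g : F) : Word → Word → Prop
  | backtrack (u v : Word) (n : ℕ) (b : Bool) (h : Avoids C g (u ++ [(n, b), (n, !b)] ++ v)) :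
      Step C g (u ++ [(n, b), (n, !b)] ++ v) (u ++ v)
  | cell (u v : Word) (k n : ℕ) (hkn : k < n)
      (h : Avoids C g (u ++ [(n, true), (k, true), (n + 1, false), (k, false)] ++ v)) :
      Step C g (u ++ [(n, true), (k, true), (n + 1, false), (k, false)] ++ v) (u ++ v)

/-- Homotopy of edge paths, with fixed end points, in the full subcomplex spanned by the vertices
outside `C`. -/
def Homotopic (C : Set F) (g : F) : Word → Word → Prop := Relation.EqvGen (Step C g)

/-! ### Values of words -/

lemma val_nil : val [] = 1 := rfl

lemma val_append (u v : Word) : val (u ++ v) = val u * val v := by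
  unfold val
  rw [← FreeGroup.mul_mk, map_mul]

lemma val_cons (l : ℕ × Bool) (w : Word) : val (l :: w) = val [l] * val w :=
  val_append [l] w

lemma val_true (n : ℕ) : val [(n, true)] = gen n := rfl

lemma val_false (n : ℕ) : val [(n, false)] = (gen n)⁻¹ := rfl

lemma val_two (a b : ℕ × Bool) : val [a, b] = val [a] * val [b] := val_cons a [b]

lemma val_cancel (n : ℕ) (b : Bool) : val [(n, b), (n, !b)] = 1 := by
  rw [val_two]
  cases b
  · rw [val_false, Bool.not_false, val_true, inv_mul_cancel]
  · rw [val_true, Bool.not_true, val_false, mul_inv_cancel]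

lemma val_cell {k n : ℕ} (h : k < n) :
    val [(n, true), (k, true), (n + 1, false), (k, false)] = 1 := by
  rw [val_cons (n, true), val_cons (k, true), val_two, val_true, val_true, val_false, val_false,
    ← mul_assoc, gen_rel h]
  group

/-! ### Avoiding -/

lemma avoids_append {C : Set F} {u v : Word} : ∀ {g : F},
    Avoids C g (u ++ v) ↔ Avoids C g u ∧ Avoids C (g * val u) v := by
  induction u with
  | nil =>
    intro g
    rw [List.nil_append, val_nil, mul_one]
    constructor
    · intro h
      refine ⟨?_, h⟩
      cases v with
      | nil => exact h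
      | cons l w => exact h.1
    · exact fun h => h.2
  | cons l u ih =>
    intro g
    rw [List.cons_append]
    show g ∉ C ∧ Avoids C (g * val [l]) (u ++ v) ↔ (g ∉ C ∧ Avoids C (g * val [l]) u) ∧ _
    rw [ih, val_cons l u, and_assoc, mul_assoc]

lemma Avoids.start {C : Set F} {g : F} {w : Word} (h : Avoids C g w) : g ∉ C := by
  cases w with
  | nil => exact h
  | cons l w => exact h.1

lemma Avoids.stop {C : Set F} {g : F} {w : Word} (h : Avoids C g w) : g * val w ∉ C := by
  have : Avoids C g (w ++ []) := by rwa [List.append_nil]
  exact (avoids_append.1 this).2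

/-! ### Homotopy is a congruence -/

lemma Step.avoids {C : Set F} {g : F} {w w' : Word} (h : Step C g w w') :
    Avoids C g w ∧ Avoids C g w' ∧ val w = val w' := by
  cases h with
  | backtrack u v n b h =>
    refine ⟨h, ?_, ?_⟩
    · rw [avoids_append, avoids_append, val_append, val_cancel, mul_one] at h
      rw [avoids_append]
      exact ⟨h.1.1, h.2⟩
    · rw [val_append, val_append, val_append, val_cancel, mul_one]
  | cell u v k n hkn h =>
    refine ⟨h, ?_, ?_⟩
    · rw [avoids_append, avoids_append, val_append, val_cell hkn, mul_one] at h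
      rw [avoids_append]
      exact ⟨h.1.1, h.2⟩
    · rw [val_append, val_append, val_append, val_cell hkn, mul_one]

lemma Step.congr {C : Set F} {g : F} {w w' : Word} (p q : Word)
    (h : Step C (g * val p) w w') (hp : Avoids C g p) (hq : Avoids C (g * val p * val w) q) :
    Step C g (p ++ w ++ q) (p ++ w' ++ q) := by
  cases h with
  | backtrack u v n b h =>
    have e1 : p ++ (u ++ [(n, b), (n, !b)] ++ v) ++ q = (p ++ u) ++ [(n, b), (n, !b)] ++ (v ++ q) := by
      simp
    have e2 : p ++ (u ++ v) ++ q = (p ++ u) ++ (v ++ q) := by simp
    have h3 : Avoids C g (p ++ (u ++ [(n, b), (n, !b)] ++ v) ++ q) := by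
      rw [avoids_append, avoids_append]
      exact ⟨⟨hp, h⟩, by rwa [val_append p, ← mul_assoc]⟩
    rw [e1] at h3
    rw [e1, e2]
    exact Step.backtrack _ _ n b h3
  | cell u v k n hkn h =>
    have e1 : p ++ (u ++ [(n, true), (k, true), (n + 1, false), (k, false)] ++ v) ++ q
        = (p ++ u) ++ [(n, true), (k, true), (n + 1, false), (k, false)] ++ (v ++ q) := by
      simp
    have e2 : p ++ (u ++ v) ++ q = (p ++ u) ++ (v ++ q) := by simp
    have h3 : Avoids C g (p ++ (u ++ [(n, true), (k, true), (n + 1, false), (k, false)] ++ v) ++ q)
        := by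
      rw [avoids_append, avoids_append]
      exact ⟨⟨hp, h⟩, by rwa [val_append p, ← mul_assoc]⟩
    rw [e1] at h3
    rw [e1, e2]
    exact Step.cell _ _ k n hkn h3

lemma Homotopic.refl {C : Set F} {g : F} (w : Word) : Homotopic C g w w := Relation.EqvGen.refl w

lemma Homotopic.symm {C : Set F} {g : F} {w w' : Word} (h : Homotopic C g w w') :
    Homotopic C g w' w := Relation.EqvGen.symm _ _ h

lemma Homotopic.trans {C : Set F} {g : F} {w w' w'' : Word} (h : Homotopic C g w w')
    (h' : Homotopic C g w' w'') : Homotopic C g w w'' := Relation.EqvGen.trans _ _ _ h h'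

lemma Homotopic.of_step {C : Set F} {g : F} {w w' : Word} (h : Step C g w w') :
    Homotopic C g w w' := Relation.EqvGen.rel _ _ h

lemma Homotopic.val_eq {C : Set F} {g : F} {w w' : Word} (h : Homotopic C g w w') :
    val w = val w' := by
  induction h with
  | rel _ _ h => exact h.avoids.2.2
  | refl _ => rfl
  | symm _ _ _ ih => exact ih.symm
  | trans _ _ _ _ _ ih1 ih2 => exact ih1.trans ih2

lemma Homotopic.congr {C : Set F} {g : F} {w w' : Word} (p q : Word)
    (h : Homotopic C (g * val p) w w') (hp : Avoids C g p)
    (hq : Avoids C (g * val p * val w) q) :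
    Homotopic C g (p ++ w ++ q) (p ++ w' ++ q) := by
  have key : ∀ w w' : Word, Relation.EqvGen (Step C (g * val p)) w w' →
      (Avoids C (g * val p * val w) q → Homotopic C g (p ++ w ++ q) (p ++ w' ++ q)) := by
    intro w w' h
    induction h with
    | rel _ _ h => exact fun hq => Homotopic.of_step (h.congr p q hp hq)
    | refl _ => exact fun _ => Homotopic.refl _
    | symm x y h ih =>
      intro hq
      have := Homotopic.val_eq (C := C) (g := g * val p) h
      exact (ih (by rwa [this])).symm
    | trans x y z h1 h2 ih1 ih2 =>
      intro hq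
      have := Homotopic.val_eq (C := C) (g := g * val p) h1
      exact (ih1 hq).trans (ih2 (by rwa [← this]))
  exact key w w' h hq

end Pool.Agent.H.MP_d8e3a9_al
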