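import Mathlib
import Pool.Agent.H.MP_d8e3a9_al.Push

/-!
Edge paths outside a finite set of vertices: the full subcomplex is connected and simply
connected.
-/

namespace Pool.Agent.H.MP_d8e3a9_al

/-! ### The generators are distinct -/

/-- The piecewise linear map that is the identity left of `n` and the translation by one right of
`n + 1`. -/
def pl (n : ℕ) : Equiv.Perm ℚ where
  toFun t := max t (min (2 * t - n) (t + 1))
  invFun s := min s (max ((s + n) / 2) (s - 1))
  left_inv t := by
    show min (max t (min (2 * t - n) (t + 1)))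
      (max ((max t (min (2 * t - n) (t + 1)) + n) / 2) (max t (min (2 * t - n) (t + 1)) - 1)) = t
    rcases le_total t n with h1 | h1
    · rw [min_eq_left (a := 2 * t - n) (by linarith), max_eq_left (a := t) (by linarith),
        max_eq_left (by linarith), min_eq_left (by linarith)]
    · rcases le_total t (n + 1) with h2 | h2
      · rw [min_eq_left (a := 2 * t - n) (by linarith), max_eq_right (a := t) (by linarith),
          max_eq_left (by linarith), min_eq_right (by linarith)]
        ring
      · rw [min_eq_right (a := 2 * t - n) (by linarith), max_eq_right (a := t) (by linarith),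
          max_eq_right (by linarith), min_eq_right (by linarith)]
        ring
  right_inv s := by
    show max (min s (max ((s + n) / 2) (s - 1)))
      (min (2 * (min s (max ((s + n) / 2) (s - 1))) - n)
        (min s (max ((s + n) / 2) (s - 1)) + 1)) = s
    rcases le_total s n with h1 | h1
    · rw [max_eq_left (a := (s + n) / 2) (by linarith), min_eq_left (a := s) (by linarith),
        min_eq_left (by linarith), max_eq_left (by linarith)]
    · rcases le_total s (n + 2) with h2 | h2
      · rw [max_eq_left (a := (s + n) / 2) (by linarith), min_eq_right (a := s) (by linarith),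
          min_eq_left (by linarith), max_eq_right (by linarith)]
        ring
      · rw [max_eq_right (a := (s + n) / 2) (by linarith), min_eq_right (a := s) (by linarith),
          min_eq_right (by linarith), max_eq_right (by linarith)]
        ring

lemma pl_left {n : ℕ} {t : ℚ} (h : t ≤ n) : pl n t = t := by
  show max t (min (2 * t - n) (t + 1)) = t
  rw [min_eq_left (by linarith), max_eq_left (by linarith)]

lemma pl_mid {n : ℕ} {t : ℚ} (h : (n : ℚ) ≤ t) (h' : t ≤ n + 1) : pl n t = 2 * t - n := by
  show max t (min (2 * t - n) (t + 1)) = _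
  rw [min_eq_left (by linarith), max_eq_right (by linarith)]

lemma pl_right {n : ℕ} {t : ℚ} (h : (n : ℚ) + 1 ≤ t) : pl n t = t + 1 := by
  show max t (min (2 * t - n) (t + 1)) = _
  rw [min_eq_right (by linarith), max_eq_right (by linarith)]

lemma pl_rel {k n : ℕ} (h : k < n) : pl k * pl n = pl (n + 1) * pl k := by
  ext t
  rw [Equiv.Perm.mul_apply, Equiv.Perm.mul_apply]
  have hk : (k : ℚ) + 1 ≤ n := by exact_mod_cast h
  have e : ((n + 1 : ℕ) : ℚ) = n + 1 := by push_cast; ring
  rcases le_total t n with h1 | h1
  · rw [pl_left h1, pl_left (n := n + 1) (t := pl k t)]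
    rcases le_total t k with h2 | h2
    · rw [pl_left h2, e]; linarith
    · rcases le_total t (k + 1) with h3 | h3
      · rw [pl_mid h2 h3, e]; linarith
      · rw [pl_right h3, e]; linarith
  · rw [pl_right (n := k) (t := t) (by linarith)]
    rcases le_total t (n + 1) with h2 | h2
    · rw [pl_mid h1 h2, pl_right (by linarith), pl_mid (by rw [e]; linarith) (by rw [e]; linarith), e]
      ring
    · rw [pl_right h2, pl_right (by linarith), pl_right (by rw [e]; linarith)]

/-- The action of `F` on the rational line. -/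
noncomputable def rep : F →* Equiv.Perm ℚ :=
  PresentedGroup.toGroup (f := fun n => (pl n)⁻¹) (by
    rintro r ⟨k, n, h, rfl⟩
    simp only [map_mul, map_inv, FreeGroup.lift_apply_of, inv_inv]
    have h1 := pl_rel h
    have h2 : pl k * (pl n)⁻¹ * (pl k)⁻¹ * pl (n + 1) = 1 := by
      have h3 : (pl k)⁻¹ * pl (n + 1) = pl n * (pl k)⁻¹ := by
        rw [inv_mul_eq_iff_eq_mul, ← mul_assoc, h1, mul_inv_cancel_right]
      rw [mul_assoc _ (pl k)⁻¹, h3, mul_assoc, ← mul_assoc (pl n)⁻¹, inv_mul_cancel, one_mul,
        mul_inv_cancel]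
    exact h2)

lemma rep_gen (n : ℕ) : rep (gen n) = (pl n)⁻¹ := PresentedGroup.toGroup.of _

lemma gen_injective : Function.Injective gen := by
  have key : ∀ m n : ℕ, m < n → gen m ≠ gen n := by
    intro m n h e
    have h1 : pl m = pl n := by
      rw [← inv_inj, ← rep_gen, ← rep_gen, e]
    have h2 : (m : ℚ) + 1 ≤ n := by exact_mod_cast h
    have h3 := DFunLike.congr_fun h1 ((m : ℚ) + 1)
    rw [pl_right le_rfl, pl_left h2] at h3
    linarith
  intro m n e
  rcases lt_trichotomy m n with h | h | h
  · exact absurd e (key m n h)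
  · exact h
  · exact absurd e.symm (key n m h)

/-! ### The exponent sum -/

/-- The exponent sum. -/
noncomputable def chiHom : F →* Multiplicative ℤ :=
  PresentedGroup.toGroup (f := fun _ => Multiplicative.ofAdd 1) (by
    rintro r ⟨k, n, h, rfl⟩
    simp only [map_mul, map_inv, FreeGroup.lift_apply_of]
    group)

/-- The exponent sum of a word. -/
noncomputable def chi (w : Word) : ℤ := (chiHom (val w)).toAdd

lemma chi_cons (l : ℕ × Bool) (w : Word) : chi (l :: w) = chi [l] + chi w := by
  unfold chi
  rw [val_cons, map_mul, toAdd_mul]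

lemma chi_true (n : ℕ) : chi [(n, true)] = 1 := by
  unfold chi
  rw [val_true]
  have : chiHom (gen n) = Multiplicative.ofAdd 1 := PresentedGroup.toGroup.of _
  rw [this, toAdd_ofAdd]

lemma chi_false (n : ℕ) : chi [(n, false)] = -1 := by
  unfold chi
  rw [val_false, map_inv]
  have : chiHom (gen n) = Multiplicative.ofAdd 1 := PresentedGroup.toGroup.of _
  rw [this, toAdd_inv, toAdd_ofAdd]

/-! ### Pushing away -/

lemma not_mem_of_large {C : Set F} (hC : C.Finite) (a b : F) :
    ∃ N₀ : ℕ, ∀ N ≥ N₀, a * gen N * b ∉ C := by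
  have h1 : {N : ℕ | a * gen N * b ∈ C}.Finite := by
    apply hC.preimage (f := fun N => a * gen N * b)
    intro m _ n _ h
    apply gen_injective
    have : a * gen m * b = a * gen n * b := h
    exact mul_left_cancel (mul_right_cancel this)
  obtain ⟨B, hB⟩ := h1.bddAbove
  refine ⟨B + 1, fun N hN h => ?_⟩
  have := hB (show N ∈ {N : ℕ | a * gen N * b ∈ C} from h)
  omega

lemma avoids_of_large {C : Set F} (hC : C.Finite) (a : F) (w : Word) : ∀ b : F,
    ∃ N₀ : ℕ, ∀ N ≥ N₀, Avoids C (a * gen N * b) w := by
  induction w with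
  | nil => exact fun b => not_mem_of_large hC a b
  | cons l w ih =>
    intro b
    obtain ⟨N₁, h1⟩ := not_mem_of_large hC a b
    obtain ⟨N₂, h2⟩ := ih (b * val [l])
    refine ⟨max N₁ N₂, fun N hN => ⟨h1 N (le_trans (le_max_left _ _) hN), ?_⟩⟩
    have := h2 N (le_trans (le_max_right _ _) hN)
    rwa [← mul_assoc] at this

lemma avoids_of_large' {C : Set F} (hC : C.Finite) (a : F) (w : Word) :
    ∃ N₀ : ℕ, ∀ N ≥ N₀, Avoids C (a * gen N) w := by
  obtain ⟨N₀, h⟩ := avoids_of_large hC a w 1
  exact ⟨N₀, fun N hN => by have := h N hN; rwa [mul_one] at this⟩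

lemma avoids_empty (w : Word) : ∀ g : F, Avoids ∅ g w := by
  induction w with
  | nil => exact fun g => Set.notMem_empty g
  | cons l w ih => exact fun g => ⟨Set.notMem_empty g, ih _⟩

/-- A homotopy in the whole complex can be pushed away from `C`. -/
lemma push_homotopy {C : Set F} (hC : C.Finite) (g : F) {w w' : Word}
    (h : Homotopic ∅ 1 w w') : ∃ N₀ : ℕ, ∀ N ≥ N₀, Homotopic C (g * gen N) w w' := by
  induction h with
  | rel x y h =>
    cases h with
    | backtrack u v n b _ =>
      obtain ⟨N₀, h⟩ := avoids_of_large' hC g (u ++ [(n, b), (n, !b)] ++ v)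
      exact ⟨N₀, fun N hN => Homotopic.of_step (Step.backtrack u v n b (h N hN))⟩
    | cell u v k n hkn _ =>
      obtain ⟨N₀, h⟩ := avoids_of_large' hC g
        (u ++ [(n, true), (k, true), (n + 1, false), (k, false)] ++ v)
      exact ⟨N₀, fun N hN => Homotopic.of_step (Step.cell u v k n hkn (h N hN))⟩
  | refl _ => exact ⟨0, fun N _ => Homotopic.refl _⟩
  | symm _ _ _ ih =>
    obtain ⟨N₀, h⟩ := ih
    exact ⟨N₀, fun N hN => (h N hN).symm⟩
  | trans _ _ _ _ _ ih1 ih2 =>
    obtain ⟨N₁, h1⟩ := ih1
    obtain ⟨N₂, h2⟩ := ih2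
    exact ⟨max N₁ N₂, fun N hN => (h1 N (le_trans (le_max_left _ _) hN)).trans
      (h2 N (le_trans (le_max_right _ _) hN))⟩

/-- Insertion of a backtrack. -/
lemma insert_backtrack {C : Set F} {g : F} (u v : Word) (n : ℕ) (b : Bool)
    (hu : Avoids C g u) (hv : Avoids C (g * val u) v) (hn : g * val u * val [(n, b)] ∉ C) :
    Homotopic C g (u ++ v) (u ++ [(n, b), (n, !b)] ++ v) := by
  refine (Homotopic.of_step (Step.backtrack u v n b ?_)).symm
  rw [avoids_append, avoids_append, val_append, val_cancel, mul_one]
  refine ⟨⟨hu, hu.stop, hn, ?_⟩, hv⟩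
  show g * val u * val [(n, b)] * val [(n, !b)] ∉ C
  have : val [(n, b)] * val [(n, !b)] = 1 := by
    rw [← val_cancel n b, val_cons (n, b) [(n, !b)]]
  rw [mul_assoc, this, mul_one]
  exact hu.stop

end Pool.Agent.H.MP_d8e3a9_al
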