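import Mathlib
import Pool.Agent.H.MP_d8e3a9_al.Push2

/-!
Edge paths outside a finite set of vertices: the full subcomplex is connected and simply
connected.
-/

namespace Pool.Agent.H.MP_d8e3a9_al

/-! ### Moving a letter across a generator with large index -/

lemma rung_true {C : Set F} {g : F} {k N : ℕ} (hk : k < N) (h0 : g ∉ C) (h1 : g * gen k ∉ C)
    (h2 : g * gen N ∉ C) (h3 : g * gen k * gen (N + 1) ∉ C) :
    Homotopic C g [(k, true), (N + 1, true)] [(N, true), (k, true)] := by
  have e1 : g * val [(N, true), (k, true)] = g * gen k * gen (N + 1) := by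
    rw [val_two, val_true, val_true, gen_rel hk, mul_assoc]
  have e2 : g * val [(N, true), (k, true), (N + 1, false)] = g * gen k := by
    have : ([(N, true), (k, true), (N + 1, false)] : Word) = [(N, true), (k, true)] ++
      [(N + 1, false)] := rfl
    rw [this, val_append, ← mul_assoc, e1, val_false, mul_inv_cancel_right]
  have a1 : Avoids C g [(N, true), (k, true)] := by
    refine ⟨h0, h2, ?_⟩
    show g * val [(N, true)] * val [(k, true)] ∉ C
    have := e1
    rw [val_cons, ← mul_assoc] at this
    rw [this]
    exact h3
  have a2 : Avoids C g [(N, true), (k, true), (N + 1, false)] := by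
    have : ([(N, true), (k, true), (N + 1, false)] : Word) = [(N, true), (k, true)] ++
      [(N + 1, false)] := rfl
    rw [this, avoids_append]
    refine ⟨a1, ?_, ?_⟩
    · rw [e1]; exact h3
    · show g * val [(N, true), (k, true)] * val [(N + 1, false)] ∉ C
      rw [e1, val_false, mul_inv_cancel_right]
      exact h1
  have s1 : Homotopic C g [(N, true), (k, true)]
      [(N, true), (k, true), (N + 1, false), (N + 1, true)] := by
    have := insert_backtrack (C := C) (g := g) [(N, true), (k, true)] [] (N + 1) false a1
      (by rw [e1]; exact h3) (by rw [e1, val_false, mul_inv_cancel_right]; exact h1)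
    simpa using this
  have s2 : Homotopic C g [(N, true), (k, true), (N + 1, false), (N + 1, true)]
      [(N, true), (k, true), (N + 1, false), (k, false), (k, true), (N + 1, true)] := by
    have := insert_backtrack (C := C) (g := g) [(N, true), (k, true), (N + 1, false)]
      [(N + 1, true)] k false a2
      (by rw [e2]; exact ⟨h1, h3⟩)
      (by rw [e2, val_false, mul_inv_cancel_right]; exact h0)
    simpa using this
  have s3 : Step C g [(N, true), (k, true), (N + 1, false), (k, false), (k, true), (N + 1, true)]
      [(k, true), (N + 1, true)] := by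
    have := Step.cell (C := C) (g := g) [] [(k, true), (N + 1, true)] k N hk (by
      rw [List.nil_append, avoids_append, val_cell hk, mul_one]
      refine ⟨?_, h0, h1, h3⟩
      have : ([(N, true), (k, true), (N + 1, false), (k, false)] : Word) =
        [(N, true), (k, true), (N + 1, false)] ++ [(k, false)] := rfl
      rw [this, avoids_append]
      refine ⟨a2, by rw [e2]; exact h1, ?_⟩
      show g * val [(N, true), (k, true), (N + 1, false)] * val [(k, false)] ∉ C
      rw [e2, val_false, mul_inv_cancel_right]
      exact h0)
    simpa using this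
  exact ((s1.trans s2).trans (Homotopic.of_step s3)).symm

lemma rung_false {C : Set F} {g : F} {k N : ℕ} (hk : k < N) (h0 : g ∉ C)
    (h1 : g * (gen k)⁻¹ ∉ C) (h2 : g * gen (N + 1) ∉ C) (h3 : g * (gen k)⁻¹ * gen N ∉ C) :
    Homotopic C g [(k, false), (N, true)] [(N + 1, true), (k, false)] := by
  have e0 : g * (gen k)⁻¹ * gen k = g := by rw [inv_mul_cancel_right]
  have e1 : g * (gen k)⁻¹ * gen k * gen (N + 1) = g * gen (N + 1) := by rw [e0]
  have key := (rung_true (C := C) (g := g * (gen k)⁻¹) hk h1 (by rw [e0]; exact h0) h3
    (by rw [e1]; exact h2))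
  -- prepend and append `(k, false)`
  have a1 : Avoids C g [(k, false)] := ⟨h0, h1⟩
  have e2 : g * val [(k, false)] * val [(k, true), (N + 1, true)] = g * gen (N + 1) := by
    rw [val_two, val_false, val_true, val_true, mul_assoc, inv_mul_cancel_left]
  have e3 : g * gen (N + 1) * (gen k)⁻¹ = g * (gen k)⁻¹ * gen N := by
    have := gen_rel hk
    have h4 : gen (N + 1) * (gen k)⁻¹ = (gen k)⁻¹ * gen N := by
      rw [mul_inv_eq_iff_eq_mul, mul_assoc, this, inv_mul_cancel_left]
    rw [mul_assoc, h4, mul_assoc]
  have s1 := Homotopic.congr (C := C) (g := g) [(k, false)] [(k, false)] key a1 (by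
    rw [e2]
    exact ⟨h2, by
      show g * gen (N + 1) * val [(k, false)] ∉ C
      rw [val_false, e3]; exact h3⟩)
  have s2 : Homotopic C g [(k, false), (k, true), (N + 1, true), (k, false)]
      [(k, false), (N, true), (k, true), (k, false)] := by simpa using s1
  have s3 : Step C g [(k, false), (k, true), (N + 1, true), (k, false)]
      [(N + 1, true), (k, false)] := by
    have := Step.backtrack (C := C) (g := g) [] [(N + 1, true), (k, false)] k false (by
      rw [List.nil_append, avoids_append, val_cancel, mul_one]
      refine ⟨⟨h0, h1, ?_⟩, h0, h2, ?_⟩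
      · show g * val [(k, false)] * val [(k, true)] ∉ C
        rw [val_false, val_true, e0]; exact h0
      · show g * val [(N + 1, true)] * val [(k, false)] ∉ C
        rw [val_true, val_false, e3]; exact h3)
    simpa using this
  have s4 : Step C g [(k, false), (N, true), (k, true), (k, false)] [(k, false), (N, true)] := by
    have := Step.backtrack (C := C) (g := g) [(k, false), (N, true)] [] k true (by
      rw [List.append_nil, avoids_append]
      have e4 : g * val [(k, false), (N, true)] = g * (gen k)⁻¹ * gen N := by
        rw [val_two, val_false, val_true, mul_assoc]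
      have e5 : g * (gen k)⁻¹ * gen N * gen k = g * gen (N + 1) := by
        rw [← e3, inv_mul_cancel_right]
      refine ⟨⟨h0, h1, ?_⟩, ?_⟩
      · show g * val [(k, false)] * val [(N, true)] ∉ C
        rw [val_false, val_true]; exact h3
      · rw [e4]
        refine ⟨h3, ?_, ?_⟩
        · show g * (gen k)⁻¹ * gen N * val [(k, true)] ∉ C
          rw [val_true, e5]; exact h2
        · show g * (gen k)⁻¹ * gen N * val [(k, true)] * val [(k, false)] ∉ C
          rw [val_true, val_false, mul_inv_cancel_right]; exact h3)
    simpa using this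
  exact ((Homotopic.of_step s3).symm.trans (s2.trans (Homotopic.of_step s4))).symm

lemma rung {C : Set F} {g : F} {l : ℕ × Bool} {N M : ℕ} (hN : l.1 + 2 ≤ N)
    (hM : (M : ℤ) = N + chi [l]) (h0 : g ∉ C) (h1 : g * val [l] ∉ C) (h2 : g * gen N ∉ C)
    (h3 : g * val [l] * gen M ∉ C) : Homotopic C g [l, (M, true)] [(N, true), l] := by
  obtain ⟨k, b⟩ := l
  cases b
  · rw [chi_false] at hM
    rw [val_false] at h1 h3
    obtain rfl : N = M + 1 := by omega
    exact rung_false (by simp only at hN; omega) h0 h1 h2 h3
  · rw [chi_true] at hM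
    rw [val_true] at h1 h3
    obtain rfl : M = N + 1 := by omega
    exact rung_true (by simp only at hN; omega) h0 h1 h2 h3

lemma chi_nil : chi [] = 0 := by
  unfold chi
  rw [val_nil, map_one, toAdd_one]

/-- A path outside `C` is homotopic outside `C` to a translate by a generator with large index. -/
lemma ladder {C : Set F} (hC : C.Finite) : ∀ (w : Word) (g : F), Avoids C g w → ∃ N₀ : ℕ,
    ∀ N ≥ N₀, Homotopic C g w ((N, true) :: (w ++ [(((N : ℤ) + chi w).toNat, false)])) := by
  intro w
  induction w with
  | nil =>
    intro g hg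
    obtain ⟨N₀, h⟩ := not_mem_of_large hC g 1
    refine ⟨N₀, fun N hN => ?_⟩
    have h1 := h N hN
    rw [mul_one] at h1
    have h2 := insert_backtrack (C := C) (g := g) [] [] N true hg
      (by rw [val_nil, mul_one]; exact hg) (by rw [val_nil, mul_one, val_true]; exact h1)
    rw [chi_nil, add_zero, Int.toNat_natCast]
    simpa using h2
  | cons l w ih =>
    intro g hg
    have hg0 : g ∉ C := hg.1
    have hg1 : Avoids C (g * val [l]) w := hg.2
    obtain ⟨N₁, h1⟩ := ih _ hg1
    obtain ⟨N₂, h2⟩ := avoids_of_large' hC (g * val [l]) w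
    obtain ⟨N₃, h3⟩ := not_mem_of_large hC g 1
    refine ⟨N₁ + N₂ + N₃ + l.1 + 3, fun N hN => ?_⟩
    have hc : chi [l] = 1 ∨ chi [l] = -1 := by
      obtain ⟨k, b⟩ := l
      cases b
      · right; exact chi_false k
      · left; exact chi_true k
    obtain ⟨M, hM⟩ : ∃ M : ℕ, (M : ℤ) = N + chi [l] :=
      ⟨(N + chi [l]).toNat, Int.toNat_of_nonneg (by rcases hc with h | h <;> rw [h] <;> omega)⟩
    have hM1 : N₁ ≤ M := by rcases hc with h | h <;> rw [h] at hM <;> omega
    have hM2 : N₂ ≤ M := by rcases hc with h | h <;> rw [h] at hM <;> omega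
    have s1 := h1 M hM1
    have a2 := h2 M hM2
    have a3 := h3 N (by omega)
    rw [mul_one] at a3
    have e : ((M : ℤ) + chi w).toNat = ((N : ℤ) + chi (l :: w)).toNat := by
      rw [chi_cons, hM]; congr 1; ring
    rw [e] at s1
    set r : ℕ := ((N : ℤ) + chi (l :: w)).toNat with hr
    have s2 : Homotopic C g (l :: w) (l :: (M, true) :: (w ++ [(r, false)])) := by
      have := Homotopic.congr (C := C) (g := g) [l] [] s1 ⟨hg0, hg1.start⟩ hg1.stop
      simpa using this
    have a4 : Avoids C (g * val [l] * gen M) (w ++ [(r, false)]) := by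
      rw [avoids_append]
      refine ⟨a2, a2.stop, ?_⟩
      have h5 := s1.val_eq
      rw [val_cons, val_true, val_append] at h5
      show g * val [l] * gen M * val w * val [(r, false)] ∉ C
      have h6 : g * val [l] * gen M * val w * val [(r, false)] = g * val [l] * val w := by
        conv_rhs => rw [h5]
        simp only [mul_assoc]
      rw [h6]
      exact hg1.stop
    have s3 : Homotopic C g (l :: (M, true) :: (w ++ [(r, false)]))
        ((N, true) :: l :: (w ++ [(r, false)])) := by
      have hrung : Homotopic C (g * val []) [l, (M, true)] [(N, true), l] := by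
        rw [val_nil, mul_one]
        exact rung (by omega) hM hg0 hg1.start a3 a2.start
      have := Homotopic.congr (C := C) (g := g) [] (w ++ [(r, false)]) hrung hg0 (by
        rw [val_nil, mul_one, val_cons, val_true, ← mul_assoc]
        exact a4)
      simpa using this
    exact s2.trans s3

/-! ### Words that represent the identity -/

lemma step_base {g g' : F} {w w' : Word} (h : Step ∅ g w w') : Step ∅ g' w w' := by
  cases h with
  | backtrack u v n b _ => exact Step.backtrack u v n b (avoids_empty _ _)
  | cell u v k n hkn _ => exact Step.cell u v k n hkn (avoids_empty _ _)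

lemma homotopic_base {g g' : F} {w w' : Word} (h : Homotopic ∅ g w w') :
    Homotopic ∅ g' w w' := by
  induction h with
  | rel _ _ h => exact Homotopic.of_step (step_base h)
  | refl _ => exact Homotopic.refl _
  | symm _ _ _ ih => exact ih.symm
  | trans _ _ _ _ _ ih1 ih2 => exact ih1.trans ih2

lemma homotopic_append {u u' v v' : Word} (h : Homotopic ∅ 1 u u') (h' : Homotopic ∅ 1 v v') :
    Homotopic ∅ 1 (u ++ v) (u' ++ v') := by
  have h1 := Homotopic.congr (C := ∅) (g := 1) [] v (homotopic_base h) (avoids_empty _ _)
    (avoids_empty _ _)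
  have h2 := Homotopic.congr (C := ∅) (g := 1) u' [] (homotopic_base h') (avoids_empty _ _)
    (avoids_empty _ _)
  simp only [List.nil_append, List.append_nil] at h1 h2
  exact h1.trans h2

lemma homotopic_of_red {w w' : Word} (h : FreeGroup.Red w w') : Homotopic ∅ 1 w w' := by
  induction h with
  | refl => exact Homotopic.refl _
  | tail _ h ih =>
    cases h with
    | not =>
      rename_i L₁ L₂ x b _
      refine ih.trans (Homotopic.of_step ?_)
      have := Step.backtrack (C := ∅) (g := 1) L₁ L₂ x b (avoids_empty _ _)
      simpa using this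

lemma homotopic_of_mk_eq {w w' : Word} (h : FreeGroup.mk w = FreeGroup.mk w') :
    Homotopic ∅ 1 w w' := by
  obtain ⟨v, h1, h2⟩ := FreeGroup.Red.exact.1 h
  exact (homotopic_of_red h1).trans (homotopic_of_red h2).symm

lemma homotopic_relator {k n : ℕ} (h : k < n) :
    Homotopic ∅ 1 [(k, false), (n, true), (k, true), (n + 1, false)] [] := by
  have s1 : Homotopic ∅ 1 [(k, false), (n, true), (k, true), (n + 1, false)]
      [(k, false), (n, true), (k, true), (n + 1, false), (k, false), (k, true)] := by
    have := Step.backtrack (C := ∅) (g := 1) [(k, false), (n, true), (k, true), (n + 1, false)]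
      [] k false (avoids_empty _ _)
    refine (Homotopic.of_step ?_).symm
    simpa using this
  have s2 : Step ∅ 1 [(k, false), (n, true), (k, true), (n + 1, false), (k, false), (k, true)]
      [(k, false), (k, true)] := by
    have := Step.cell (C := ∅) (g := 1) [(k, false)] [(k, true)] k n h (avoids_empty _ _)
    simpa using this
  have s3 : Step ∅ 1 [(k, false), (k, true)] [] := by
    have := Step.backtrack (C := ∅) (g := 1) [] [] k false (avoids_empty _ _)
    simpa using this
  exact (s1.trans (Homotopic.of_step s2)).trans (Homotopic.of_step s3)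

lemma homotopic_nil_of_mem {x : FreeGroup ℕ} (hx : x ∈ Subgroup.normalClosure relators) :
    ∀ w : Word, FreeGroup.mk w = x → Homotopic ∅ 1 w [] := by
  unfold Subgroup.normalClosure at hx
  induction hx using Subgroup.closure_induction with
  | mem x hx =>
    intro w hw
    obtain ⟨r, hr, hc⟩ := Group.mem_conjugatesOfSet_iff.1 hx
    obtain ⟨c, hc⟩ := isConj_iff.1 hc
    obtain ⟨k, n, hkn, rfl⟩ := hr
    have e : FreeGroup.mk w = FreeGroup.mk (c.toWord ++ [(k, false), (n, true), (k, true),
        (n + 1, false)] ++ FreeGroup.invRev c.toWord) := by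
      rw [hw, ← hc, ← FreeGroup.mul_mk, ← FreeGroup.mul_mk, ← FreeGroup.inv_mk,
        FreeGroup.mk_toWord]
      rfl
    refine (homotopic_of_mk_eq e).trans ?_
    have h1 : Homotopic ∅ 1 (c.toWord ++ [(k, false), (n, true), (k, true), (n + 1, false)] ++
        FreeGroup.invRev c.toWord) (c.toWord ++ [] ++ FreeGroup.invRev c.toWord) :=
      homotopic_append (homotopic_append (Homotopic.refl _) (homotopic_relator hkn))
        (Homotopic.refl _)
    refine h1.trans (homotopic_of_mk_eq ?_)
    rw [List.append_nil, ← FreeGroup.mul_mk, ← FreeGroup.inv_mk, mul_inv_cancel]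
    rfl
  | one =>
    intro w hw
    exact homotopic_of_mk_eq (by rw [hw]; rfl)
  | mul x y _ _ ihx ihy =>
    intro w hw
    have e : FreeGroup.mk w = FreeGroup.mk (x.toWord ++ y.toWord) := by
      rw [hw, ← FreeGroup.mul_mk, FreeGroup.mk_toWord, FreeGroup.mk_toWord]
    refine (homotopic_of_mk_eq e).trans ?_
    have := homotopic_append (ihx _ FreeGroup.mk_toWord) (ihy _ FreeGroup.mk_toWord)
    simpa using this
  | inv x _ ih =>
    intro w hw
    have h1 : Homotopic ∅ 1 (FreeGroup.invRev w) [] := by
      apply ih
      rw [← FreeGroup.inv_mk, hw, inv_inv]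
    have h2 : Homotopic ∅ 1 (w ++ FreeGroup.invRev w) w := by
      have := homotopic_append (Homotopic.refl (C := ∅) (g := 1) w) h1
      simpa using this
    refine h2.symm.trans (homotopic_of_mk_eq ?_)
    rw [← FreeGroup.mul_mk, ← FreeGroup.inv_mk, mul_inv_cancel]
    rfl

lemma homotopic_nil_of_val {w : Word} (h : val w = 1) : Homotopic ∅ 1 w [] := by
  apply homotopic_nil_of_mem (x := FreeGroup.mk w) _ w rfl
  exact (QuotientGroup.eq_one_iff _).1 h

lemma exists_word (x : F) : ∃ w : Word, val w = x := by
  obtain ⟨y, rfl⟩ := PresentedGroup.mk_surjective relators x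
  exact ⟨y.toWord, by unfold val; rw [FreeGroup.mk_toWord]⟩

/-! ### The main theorem -/

/-- Outside a finite set `C` of vertices, the full subcomplex is connected and simply
connected. -/
theorem tame_full (C : Set F) (hC : C.Finite) :
    (∀ g h : F, g ∉ C → h ∉ C → ∃ w, Avoids C g w ∧ g * val w = h) ∧
      ∀ (g : F) (w : Word), Avoids C g w → g * val w = g → Homotopic C g w [] := by
  constructor
  · intro g h hg hh
    obtain ⟨w, hw⟩ := exists_word (g⁻¹ * h)
    obtain ⟨N₁, h1⟩ := ladder (C := ∅) Set.finite_empty w g (avoids_empty _ _)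
    obtain ⟨N₂, h2⟩ := avoids_of_large' hC g w
    have h3 := (h1 (N₁ + N₂) (by omega)).val_eq
    have a2 := h2 (N₁ + N₂) (by omega)
    set N := N₁ + N₂ with hN
    set r := ((N : ℤ) + chi w).toNat with hr
    refine ⟨(N, true) :: (w ++ [(r, false)]), ⟨hg, ?_⟩, ?_⟩
    · rw [avoids_append]
      refine ⟨a2, a2.stop, ?_⟩
      show g * val [(N, true)] * val w * val [(r, false)] ∉ C
      rw [mul_assoc, ← val_append, mul_assoc, ← val_cons, ← h3, hw, mul_inv_cancel_left]
      exact hh
    · rw [← h3, hw, mul_inv_cancel_left]
  · intro g w hw hval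
    have hv : val w = 1 := by
      have : g * val w = g * 1 := by rw [hval, mul_one]
      exact mul_left_cancel this
    have hchi : chi w = 0 := by
      unfold chi
      rw [hv, map_one, toAdd_one]
    obtain ⟨N₁, h1⟩ := ladder hC w g hw
    obtain ⟨N₂, h2⟩ := push_homotopy hC g (homotopic_nil_of_val hv)
    obtain ⟨N₃, h3⟩ := avoids_of_large' hC g w
    have s1 := h1 (N₁ + N₂ + N₃) (by omega)
    have s2 := h2 (N₁ + N₂ + N₃) (by omega)
    have a3 := h3 (N₁ + N₂ + N₃) (by omega)
    set N := N₁ + N₂ + N₃ with hN
    rw [hchi, add_zero, Int.toNat_natCast] at s1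
    have hg0 : g ∉ C := hw.start
    have s3 : Homotopic C g ((N, true) :: (w ++ [(N, false)])) ((N, true) :: [(N, false)]) := by
      have := Homotopic.congr (C := C) (g := g) [(N, true)] [(N, false)] s2 ⟨hg0, a3.start⟩ (by
        rw [hv, mul_one]
        refine ⟨a3.start, ?_⟩
        show g * val [(N, true)] * val [(N, false)] ∉ C
        rw [val_true, val_false, mul_inv_cancel_right]
        exact hg0)
      simpa using this
    have s4 : Step C g [(N, true), (N, false)] [] := by
      have := Step.backtrack (C := C) (g := g) [] [] N true (by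
        rw [List.nil_append, List.append_nil]
        refine ⟨hg0, a3.start, ?_⟩
        show g * val [(N, true)] * val [(N, false)] ∉ C
        rw [val_true, val_false, mul_inv_cancel_right]
        exact hg0)
      simpa using this
    exact (s1.trans s3).trans (Homotopic.of_step s4)

end Pool.Agent.H.MP_d8e3a9_al
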